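import Pool.Agent.KS6_2.SX.Final

/-!
# A copy of `ℓ_∞` in the strictly singular operators modulo `c_0`-factorable operators

Scalars are real or complex (`RCLike 𝕜`), positive integers are `ℕ+`. `Sch n` is the `n`-th
Schreier family (`Pool/Agent/KS6_2/SX/Comb.lean`); `X 𝕜 n` is the Schreier space `X[S_n]`, the
completion of `c_00` in the norm `nrm n x`, the supremum of `∑ j ∈ E, ‖x j‖` over `E ∈ Sch n`
(`Pool/Agent/KS6_2/SX/Space.lean`);
`StrictlySingular T` says that `T` is bounded below on no infinite-dimensional closed subspace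
(`Pool/Agent/KS6_2/SX/SS.lean`). In `Pool/Agent/KS6_2/SX/Final.lean`: `OpS 𝕜 n` is the normed space
of bounded operators on `X 𝕜 n`, `Linf 𝕜` is `ℓ_∞`, and `opsSS`, `opsC0`, `opsCK`, `opsHilbert` are
the operators which are strictly singular, factor through `c_0` (Mathlib's `C₀(ℕ, 𝕜)`), through
`C₀(K, 𝕜)` for some locally compact Hausdorff space `K`, through some Hilbert space.

For every `n ≥ 1` there is a bounded linear map `Φ` from `ℓ_∞` to the operators on `X[S_n]` such
that each `Φ a` is strictly singular and factors through a Hilbert space, and has distance at least `‖a‖`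
to the closure of the set of operators which factor through some `C₀(K)`, which contains the
closure of the operators which factor through `c_0`. So `ℓ_∞` embeds in the strictly singular
operators modulo the closure of the `c_0`-factorable ones.

Proof. Let `T` be an operator with `‖T x‖ ≤ 3 ‖x‖_2` made of Rademacher embeddings of `ℓ_2(I_k)`
in complemented copies of `ℓ_1^M`, for disjoint finite sets `I_k` which carry weights of Schreier
norm at most `1` and of sum `L_k = 2^k / 3`. Put `Φ a = T D_a`, where `D_a` is the diagonal operator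
which multiplies the coordinates in `I_k` by `a_{φ(k)}`, and `φ` takes each value infinitely often.
For an operator `A B` through `C₀(K)`, a partition of unity approximates `A B` on the unit vectors
of `I_k` by operators `(A v)(u B)` through `c_0` with contractions `u`, `v`, and Grothendieck's
inequality gives `|a_{φ(k)}| L_k ≤ ‖Φ a - A B‖ L_k + K ‖A‖ (‖B‖ + 1) √L_k` up to a small error.
Let `k → ∞` with `φ(k) = i`.
-/

namespace Pool.Agent.Results.MP_3cdc4e_an.EllInfinityCopy

open Pool.Agent.KS62.SX

theorem result (𝕜 : Type) [RCLike 𝕜] (n : ℕ) (hn : 1 ≤ n) :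
    opsC0 𝕜 n ⊆ opsCK 𝕜 n ∧
    ∃ Φ : Linf 𝕜 →L[𝕜] OpS 𝕜 n, (∀ a, Φ a ∈ opsSS 𝕜 n ∩ opsHilbert 𝕜 n) ∧
      ∀ a, ∀ S ∈ closure (opsCK 𝕜 n), ‖a‖ ≤ ‖Φ a - S‖ :=
  ⟨opsC0_subset 𝕜 n, main5 𝕜 n hn⟩

end Pool.Agent.Results.MP_3cdc4e_an.EllInfinityCopy
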